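import Pool.Agent.LibKS77.Prob

set_option autoImplicit false
set_option linter.unusedSectionVars false

/-!
# Module S of the general Komlós bound, (S2)-(S4): the collision set, deterministic part

`Us ω (k * s)` = survivors of the first `s` batches, `Up` = the same with nobody left at the end,
`Vp i` = members of batch `i + 1` (before removal of the collisions), `Lt i p` = the coarse rows of
the element `p` as a member of batch `i + 1`.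
-/

namespace Pool.Agent.LibKS77

open Matrix Finset KH98

variable {m : Type*} [Fintype m] [DecidableEq m]
variable {ι : Type*} [Fintype ι] [DecidableEq ι] {τ : ℕ}
variable {β : Type*} [Fintype β] [DecidableEq β]

/-- survivors of the first `s` batches; nobody survives the batch `T` -/
def Up (k T : ℕ) (ω : ι → Fin τ → Bool) (s : ℕ) : Finset ι := if s < T then Us ω (k * s) else ∅

/-- members of batch `i + 1` -/
def Vp (k T : ℕ) (ω : ι → Fin τ → Bool) (i : ℕ) : Finset ι := Up k T ω i \ Up k T ω (i + 1)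

/-- the collision set -/
noncomputable def Nc (k T : ℕ) (Lt : ℕ → ι → Finset m) (ω : ι → Fin τ → Bool) : Finset ι :=
  open Classical in
  univ.filter fun p => ∃ i < T, p ∈ Vp k T ω i ∧ ∃ p', p' ≠ p ∧ ∃ i' < T, p' ∈ Vp k T ω i' ∧
    ∃ j, j ∈ Lt i p ∧ j ∈ Lt i' p'

/-- the elements with digit `x` at the place `b` which meet, as members of batch `i + 1`, a
surviving element with the other digit in a coarse row -/
noncomputable def Bs (k T : ℕ) (Lt : ℕ → ι → Finset m) (dg : β → ι → Bool) (ω : ι → Fin τ → Bool)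
    (i : ℕ) (b : β) (x : Bool) : Finset ι :=
  open Classical in
  univ.filter fun p => dg b p = x ∧ ∃ p', dg b p' ≠ x ∧ ∃ i' < T, p' ∈ Us ω (k * i') ∧
    ∃ j, j ∈ Lt i p ∧ j ∈ Lt i' p'

/-- the form `K_j` -/
noncomputable def Kf (k : ℕ) (Lt : ℕ → ι → Finset m) (a : ι → m → ℝ) (i : ℕ) (j : m)
    (v : m → ℝ) : ℝ :=
  (1 / 2) ^ (k * i) * ∑ p, if j ∈ Lt i p then (a p ⬝ᵥ v) ^ 2 else 0

theorem Up_anti (k T : ℕ) (ω : ι → Fin τ → Bool) {s t : ℕ} (h : s ≤ t) :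
    Up k T ω t ⊆ Up k T ω s := by
  intro p hp
  unfold Up at hp ⊢
  by_cases ht : t < T
  · rw [if_pos ht] at hp
    rw [if_pos (by omega)]
    exact Us_anti ω (Nat.mul_le_mul_left k h) hp
  · rw [if_neg ht] at hp
    exact absurd hp (Finset.notMem_empty p)

theorem Up_T (k T : ℕ) (ω : ι → Fin τ → Bool) : Up k T ω T = ∅ := by
  unfold Up
  rw [if_neg (lt_irrefl T)]

theorem Up_zero (k : ℕ) {T : ℕ} (hT : 0 < T) (ω : ι → Fin τ → Bool) : Up k T ω 0 = univ := by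
  unfold Up
  rw [if_pos hT, Nat.mul_zero, Us_zero]

theorem Up_sub_Us (k T : ℕ) (ω : ι → Fin τ → Bool) (s : ℕ) : Up k T ω s ⊆ Us ω (k * s) := by
  intro p hp
  unfold Up at hp
  by_cases hs : s < T
  · rwa [if_pos hs] at hp
  · rw [if_neg hs] at hp
    exact absurd hp (Finset.notMem_empty p)

theorem Vp_sub_Us (k T : ℕ) (ω : ι → Fin τ → Bool) (i : ℕ) : Vp k T ω i ⊆ Us ω (k * i) := by
  intro p hp
  unfold Vp at hp
  exact Up_sub_Us k T ω i (Finset.mem_sdiff.mp hp).1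

/-- the index of the batch of an element which is still there after `s` batches is at least `s` -/
theorem le_of_mem_Vp {k T : ℕ} {ω : ι → Fin τ → Bool} {s i : ℕ} {p : ι} (h1 : p ∈ Up k T ω s)
    (h2 : p ∈ Vp k T ω i) : s ≤ i := by
  by_contra h
  have h3 : p ∈ Up k T ω (i + 1) := Up_anti k T ω (by omega : i + 1 ≤ s) h1
  exact (Finset.mem_sdiff.mp h2).2 h3

theorem Kf_nonneg (k : ℕ) (Lt : ℕ → ι → Finset m) (a : ι → m → ℝ) (i : ℕ) (j : m) (v : m → ℝ) :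
    0 ≤ Kf k Lt a i j v := by
  unfold Kf
  refine mul_nonneg (by positivity) (Finset.sum_nonneg fun p _ => ?_)
  split_ifs
  · positivity
  · exact le_rfl

theorem Kf_le {k : ℕ} {Lt : ℕ → ι → Finset m} {a : ι → m → ℝ} (ha : ∀ p, a p ⬝ᵥ a p ≤ 1) {i : ℕ}
    {E : ℝ} (hE : ∀ j, (1 / 2 : ℝ) ^ (k * i) * ((univ.filter fun p => j ∈ Lt i p).card : ℝ) ≤ E)
    (j : m) (v : m → ℝ) : Kf k Lt a i j v ≤ E * (v ⬝ᵥ v) := by
  have h1 : ∑ p, (if j ∈ Lt i p then (a p ⬝ᵥ v) ^ 2 else 0) ≤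
      ((univ.filter fun p => j ∈ Lt i p).card : ℝ) * (v ⬝ᵥ v) := by
    rw [← Finset.sum_filter, ← nsmul_eq_mul]
    exact Finset.sum_le_card_nsmul _ _ _ fun p _ => dot_sq_le (ha p) v
  unfold Kf
  calc (1 / 2 : ℝ) ^ (k * i) * ∑ p, (if j ∈ Lt i p then (a p ⬝ᵥ v) ^ 2 else 0)
      ≤ (1 / 2 : ℝ) ^ (k * i) * (((univ.filter fun p => j ∈ Lt i p).card : ℝ) * (v ⬝ᵥ v)) :=
        mul_le_mul_of_nonneg_left h1 (by positivity)
    _ = ((1 / 2 : ℝ) ^ (k * i) * ((univ.filter fun p => j ∈ Lt i p).card : ℝ)) * (v ⬝ᵥ v) := by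
        ring
    _ ≤ E * (v ⬝ᵥ v) := mul_le_mul_of_nonneg_right (hE j) (dot_self_nonneg v)

theorem sum_Kf_le {k : ℕ} {Lt : ℕ → ι → Finset m} {a : ι → m → ℝ} {i : ℕ}
    {M : ℝ} (hM : ∀ p, ((Lt i p).card : ℝ) ≤ M) (v : m → ℝ) :
    ∑ j, Kf k Lt a i j v ≤ M * ((1 / 2) ^ (k * i) * ∑ p, (a p ⬝ᵥ v) ^ 2) := by
  unfold Kf
  rw [← Finset.mul_sum, Finset.sum_comm]
  have h1 : ∑ p, ∑ j, (if j ∈ Lt i p then (a p ⬝ᵥ v) ^ 2 else 0) ≤
      M * ∑ p, (a p ⬝ᵥ v) ^ 2 := by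
    rw [Finset.mul_sum]
    refine Finset.sum_le_sum fun p _ => ?_
    rw [← Finset.sum_filter, Finset.sum_const, nsmul_eq_mul]
    have h2 : (univ.filter fun j => j ∈ Lt i p) = Lt i p := by
      ext j
      simp
    rw [h2]
    exact mul_le_mul_of_nonneg_right (hM p) (by positivity)
  calc (1 / 2 : ℝ) ^ (k * i) * ∑ p, ∑ j, (if j ∈ Lt i p then (a p ⬝ᵥ v) ^ 2 else 0)
      ≤ (1 / 2 : ℝ) ^ (k * i) * (M * ∑ p, (a p ⬝ᵥ v) ^ 2) :=
        mul_le_mul_of_nonneg_left h1 (by positivity)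
    _ = M * ((1 / 2) ^ (k * i) * ∑ p, (a p ⬝ᵥ v) ^ 2) := by ring

/-- mean of the late forms -/
theorem late_mean {k : ℕ} {Lt : ℕ → ι → Finset m} {a : ι → m → ℝ} {i i' : ℕ} {E M : ℝ}
    (hM : ∀ p, ((Lt i p).card : ℝ) ≤ M) (hE0 : 0 ≤ E)
    (hE : ∀ j, (1 / 2 : ℝ) ^ (k * i') * ((univ.filter fun p => j ∈ Lt i' p).card : ℝ) ≤ E)
    (v : m → ℝ) :
    (1 / 2) ^ (k * i') * ∑ p', ∑ j ∈ Lt i' p', Kf k Lt a i j v ≤
      E * M * ((1 / 2) ^ (k * i) * ∑ p, (a p ⬝ᵥ v) ^ 2) := by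
  have h1 : ∑ p', ∑ j ∈ Lt i' p', Kf k Lt a i j v =
      ∑ j, ((univ.filter fun p => j ∈ Lt i' p).card : ℝ) * Kf k Lt a i j v := by
    have h2 : ∀ p', ∑ j ∈ Lt i' p', Kf k Lt a i j v =
        ∑ j, if j ∈ Lt i' p' then Kf k Lt a i j v else 0 := by
      intro p'
      rw [← Finset.sum_filter]
      refine Finset.sum_congr ?_ fun _ _ => rfl
      ext j
      simp
    simp only [h2]
    rw [Finset.sum_comm]
    refine Finset.sum_congr rfl fun j _ => ?_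
    rw [← Finset.sum_filter, Finset.sum_const, nsmul_eq_mul]
  rw [h1, Finset.mul_sum]
  calc ∑ j, (1 / 2 : ℝ) ^ (k * i') * (((univ.filter fun p => j ∈ Lt i' p).card : ℝ) *
        Kf k Lt a i j v)
      ≤ ∑ j, E * Kf k Lt a i j v := by
        refine Finset.sum_le_sum fun j _ => ?_
        rw [← mul_assoc]
        exact mul_le_mul_of_nonneg_right (hE j) (Kf_nonneg k Lt a i j v)
    _ = E * ∑ j, Kf k Lt a i j v := by rw [Finset.mul_sum]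
    _ ≤ E * (M * ((1 / 2) ^ (k * i) * ∑ p, (a p ⬝ᵥ v) ^ 2)) :=
        mul_le_mul_of_nonneg_left (sum_Kf_le hM v) hE0
    _ = E * M * ((1 / 2) ^ (k * i) * ∑ p, (a p ⬝ᵥ v) ^ 2) := by ring

/-- the bad elements are covered by the late forms -/
theorem bad_cover (k T : ℕ) (Lt : ℕ → ι → Finset m) (a : ι → m → ℝ) (dg : β → ι → Bool)
    (ω : ι → Fin τ → Bool) (i : ℕ) (b : β) (x : Bool) (v : m → ℝ) :
    (1 / 2) ^ (k * i) * ∑ p ∈ Bs k T Lt dg ω i b x, (a p ⬝ᵥ v) ^ 2 ≤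
      ∑ i' ∈ range T, ∑ p' ∈ Us ω (k * i'), ∑ j ∈ Lt i' p', Kf k Lt a i j v := by
  have h1 : ∀ p ∈ Bs k T Lt dg ω i b x, (a p ⬝ᵥ v) ^ 2 ≤
      ∑ i' ∈ range T, ∑ p' ∈ Us ω (k * i'), ∑ j ∈ Lt i' p',
        if j ∈ Lt i p then (a p ⬝ᵥ v) ^ 2 else 0 := by
    intro p hp
    unfold Bs at hp
    rw [Finset.mem_filter] at hp
    obtain ⟨_, _, p', _, i', hi', hp', j, hj, hj'⟩ := hp
    have n1 : ∀ i'' : ℕ, ∀ p'' : ι, 0 ≤ ∑ j ∈ Lt i'' p'',
        (if j ∈ Lt i p then (a p ⬝ᵥ v) ^ 2 else 0) := fun i'' p'' =>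
      Finset.sum_nonneg fun j _ => by split_ifs <;> positivity
    calc (a p ⬝ᵥ v) ^ 2 = (if j ∈ Lt i p then (a p ⬝ᵥ v) ^ 2 else 0) := by rw [if_pos hj]
      _ ≤ ∑ j ∈ Lt i' p', (if j ∈ Lt i p then (a p ⬝ᵥ v) ^ 2 else 0) :=
          Finset.single_le_sum (f := fun j => if j ∈ Lt i p then (a p ⬝ᵥ v) ^ 2 else 0)
            (fun j _ => by split_ifs <;> positivity) hj'
      _ ≤ ∑ p' ∈ Us ω (k * i'), ∑ j ∈ Lt i' p',
            (if j ∈ Lt i p then (a p ⬝ᵥ v) ^ 2 else 0) :=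
          Finset.single_le_sum (f := fun p' => ∑ j ∈ Lt i' p',
            (if j ∈ Lt i p then (a p ⬝ᵥ v) ^ 2 else 0)) (fun p'' _ => n1 i' p'') hp'
      _ ≤ _ := Finset.single_le_sum (f := fun i' => ∑ p' ∈ Us ω (k * i'), ∑ j ∈ Lt i' p',
            (if j ∈ Lt i p then (a p ⬝ᵥ v) ^ 2 else 0))
            (fun i'' _ => Finset.sum_nonneg fun p'' _ => n1 i'' p'') (Finset.mem_range.mpr hi')
  have h2 : ∑ p ∈ Bs k T Lt dg ω i b x, (a p ⬝ᵥ v) ^ 2 ≤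
      ∑ p, ∑ i' ∈ range T, ∑ p' ∈ Us ω (k * i'), ∑ j ∈ Lt i' p',
        if j ∈ Lt i p then (a p ⬝ᵥ v) ^ 2 else 0 := by
    refine (Finset.sum_le_sum h1).trans ?_
    refine Finset.sum_le_sum_of_subset_of_nonneg (Finset.subset_univ _) ?_
    intro p _ _
    exact Finset.sum_nonneg fun i' _ => Finset.sum_nonneg fun p' _ =>
      Finset.sum_nonneg fun j _ => by split_ifs <;> positivity
  have h3 : ∑ p, ∑ i' ∈ range T, ∑ p' ∈ Us ω (k * i'), ∑ j ∈ Lt i' p',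
        (if j ∈ Lt i p then (a p ⬝ᵥ v) ^ 2 else 0) =
      ∑ i' ∈ range T, ∑ p' ∈ Us ω (k * i'), ∑ j ∈ Lt i' p', ∑ p,
        (if j ∈ Lt i p then (a p ⬝ᵥ v) ^ 2 else 0) := by
    rw [Finset.sum_comm]
    refine Finset.sum_congr rfl fun i' _ => ?_
    rw [Finset.sum_comm]
    refine Finset.sum_congr rfl fun p' _ => ?_
    rw [Finset.sum_comm]
  calc (1 / 2 : ℝ) ^ (k * i) * ∑ p ∈ Bs k T Lt dg ω i b x, (a p ⬝ᵥ v) ^ 2
      ≤ (1 / 2 : ℝ) ^ (k * i) * ∑ i' ∈ range T, ∑ p' ∈ Us ω (k * i'), ∑ j ∈ Lt i' p', ∑ p,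
        (if j ∈ Lt i p then (a p ⬝ᵥ v) ^ 2 else 0) := by
        rw [← h3]
        exact mul_le_mul_of_nonneg_left h2 (by positivity)
    _ = ∑ i' ∈ range T, ∑ p' ∈ Us ω (k * i'), ∑ j ∈ Lt i' p', Kf k Lt a i j v := by
        simp only [Kf, Finset.mul_sum]

/-- the collision set is covered by the bad sets -/
theorem coll_cover (k T : ℕ) (Lt : ℕ → ι → Finset m) (a : ι → m → ℝ) (dg : β → ι → Bool)
    (hdg : ∀ p p', p ≠ p' → ∃ b, dg b p ≠ dg b p')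
    (ω : ι → Fin τ → Bool) (s : ℕ) (v : m → ℝ) :
    ∑ p ∈ Nc k T Lt ω ∩ Up k T ω s, (a p ⬝ᵥ v) ^ 2 ≤
      ∑ y : β × Bool, ∑ i ∈ Finset.Ico s T, ∑ p ∈ (Us ω (k * i)).filter
        (fun p => p ∈ Bs k T Lt dg ω i y.1 y.2), (a p ⬝ᵥ v) ^ 2 := by
  have h1 : ∀ p ∈ Nc k T Lt ω ∩ Up k T ω s, (a p ⬝ᵥ v) ^ 2 ≤
      ∑ y : β × Bool, ∑ i ∈ Finset.Ico s T,
        if p ∈ (Us ω (k * i)).filter (fun p => p ∈ Bs k T Lt dg ω i y.1 y.2) then
          (a p ⬝ᵥ v) ^ 2 else 0 := by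
    intro p hp
    rw [Finset.mem_inter] at hp
    obtain ⟨hpN, hpU⟩ := hp
    unfold Nc at hpN
    rw [Finset.mem_filter] at hpN
    obtain ⟨_, i, hi, hpi, p', hne, i', hi', hp', j, hj, hj'⟩ := hpN
    obtain ⟨b, hb⟩ := hdg p p' (Ne.symm hne)
    have hsi : s ≤ i := le_of_mem_Vp hpU hpi
    have hmem : p ∈ (Us ω (k * i)).filter
        (fun p' => p' ∈ Bs k T Lt dg ω i (b, dg b p).1 (b, dg b p).2) := by
      rw [Finset.mem_filter]
      refine ⟨Vp_sub_Us k T ω i hpi, ?_⟩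
      unfold Bs
      rw [Finset.mem_filter]
      exact ⟨Finset.mem_univ _, rfl, p', Ne.symm hb, i', hi', Vp_sub_Us k T ω i' hp', j, hj, hj'⟩
    calc (a p ⬝ᵥ v) ^ 2 = (if p ∈ (Us ω (k * i)).filter
          (fun p' => p' ∈ Bs k T Lt dg ω i (b, dg b p).1 (b, dg b p).2) then
            (a p ⬝ᵥ v) ^ 2 else 0) := (if_pos hmem).symm
      _ ≤ ∑ i ∈ Finset.Ico s T, (if p ∈ (Us ω (k * i)).filter
          (fun p' => p' ∈ Bs k T Lt dg ω i (b, dg b p).1 (b, dg b p).2) then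
            (a p ⬝ᵥ v) ^ 2 else 0) :=
          Finset.single_le_sum (f := fun i => if p ∈ (Us ω (k * i)).filter
            (fun p' => p' ∈ Bs k T Lt dg ω i (b, dg b p).1 (b, dg b p).2) then
            (a p ⬝ᵥ v) ^ 2 else 0) (fun i _ => by split_ifs <;> positivity)
            (Finset.mem_Ico.mpr ⟨hsi, hi⟩)
      _ ≤ _ := Finset.single_le_sum (f := fun y : β × Bool => ∑ i ∈ Finset.Ico s T,
            if p ∈ (Us ω (k * i)).filter (fun p' => p' ∈ Bs k T Lt dg ω i y.1 y.2) then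
            (a p ⬝ᵥ v) ^ 2 else 0) (fun y _ => Finset.sum_nonneg fun i _ => by
              split_ifs <;> positivity) (Finset.mem_univ (b, dg b p))
  calc ∑ p ∈ Nc k T Lt ω ∩ Up k T ω s, (a p ⬝ᵥ v) ^ 2
      ≤ ∑ p ∈ Nc k T Lt ω ∩ Up k T ω s, ∑ y : β × Bool, ∑ i ∈ Finset.Ico s T,
        (if p ∈ (Us ω (k * i)).filter (fun p => p ∈ Bs k T Lt dg ω i y.1 y.2) then
          (a p ⬝ᵥ v) ^ 2 else 0) := Finset.sum_le_sum h1
    _ ≤ ∑ p, ∑ y : β × Bool, ∑ i ∈ Finset.Ico s T,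
        (if p ∈ (Us ω (k * i)).filter (fun p => p ∈ Bs k T Lt dg ω i y.1 y.2) then
          (a p ⬝ᵥ v) ^ 2 else 0) := by
        refine Finset.sum_le_sum_of_subset_of_nonneg (Finset.subset_univ _) ?_
        intro p _ _
        exact Finset.sum_nonneg fun y _ => Finset.sum_nonneg fun i _ => by
          split_ifs <;> positivity
    _ = ∑ y : β × Bool, ∑ i ∈ Finset.Ico s T, ∑ p ∈ (Us ω (k * i)).filter
        (fun p => p ∈ Bs k T Lt dg ω i y.1 y.2), (a p ⬝ᵥ v) ^ 2 := by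
        rw [Finset.sum_comm]
        refine Finset.sum_congr rfl fun y _ => ?_
        rw [Finset.sum_comm]
        refine Finset.sum_congr rfl fun i _ => ?_
        rw [← Finset.sum_filter]
        refine Finset.sum_congr ?_ fun _ _ => rfl
        ext p
        simp

/-- (S4): the forms of the collisions are small -/
theorem coll_small {k T : ℕ} {Lt : ℕ → ι → Finset m} {a : ι → m → ℝ} {dg : β → ι → Bool}
    (hdg : ∀ p p', p ≠ p' → ∃ b, dg b p ≠ dg b p')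
    {ω : ι → Fin τ → Bool} {E M w₁ w₂ : ℝ} (hE0 : 0 ≤ E) (hM0 : 0 ≤ M)
    (hw₁ : 0 ≤ w₁) (hw₂ : 0 ≤ w₂)
    (hM : ∀ i < T, ∀ p, ((Lt i p).card : ℝ) ≤ M)
    (hE : ∀ i < T, ∀ j, (1 / 2 : ℝ) ^ (k * i) *
      ((univ.filter fun p => j ∈ Lt i p).card : ℝ) ≤ E)
    (g2 : ∀ i < T, ∀ (b : β) (x : Bool) (v : m → ℝ),
      ∑ p ∈ (Us ω (k * i)).filter (fun p => p ∈ Bs k T Lt dg ω i b x), (a p ⬝ᵥ v) ^ 2 ≤
        2 * ((1 / 2) ^ (k * i) * ∑ p ∈ Bs k T Lt dg ω i b x, (a p ⬝ᵥ v) ^ 2) + w₁ * (v ⬝ᵥ v))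
    (g3 : ∀ i < T, ∀ i' < T, ∀ v : m → ℝ,
      ∑ p' ∈ Us ω (k * i'), ∑ j ∈ Lt i' p', Kf k Lt a i j v ≤
        2 * ((1 / 2) ^ (k * i') * ∑ p', ∑ j ∈ Lt i' p', Kf k Lt a i j v) + w₂ * (v ⬝ᵥ v))
    (s : ℕ) (v : m → ℝ) :
    ∑ p ∈ Nc k T Lt ω ∩ Up k T ω s, (a p ⬝ᵥ v) ^ 2 ≤
      (8 * Fintype.card β * (T : ℝ) ^ 2 * (E * M)) * ((1 / 2) ^ (k * s) * ∑ p, (a p ⬝ᵥ v) ^ 2) +
      (2 * Fintype.card β * T * (2 * T * w₂ + w₁)) * (v ⬝ᵥ v) := by
  have hv := dot_self_nonneg v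
  set G : ℝ := ∑ p, (a p ⬝ᵥ v) ^ 2 with hG
  have hG0 : 0 ≤ G := Finset.sum_nonneg fun p _ => by positivity
  set X : ℝ := 4 * T * (E * M) * ((1 / 2) ^ (k * s) * G) + (2 * T * w₂ + w₁) * (v ⬝ᵥ v) with hX
  have hX0 : 0 ≤ X := by positivity
  have h1 : ∀ (y : β × Bool), ∀ i ∈ Finset.Ico s T,
      ∑ p ∈ (Us ω (k * i)).filter (fun p => p ∈ Bs k T Lt dg ω i y.1 y.2), (a p ⬝ᵥ v) ^ 2 ≤
        X := by
    intro y i hi
    rw [Finset.mem_Ico] at hi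
    have e1 := g2 i hi.2 y.1 y.2 v
    have e2 := bad_cover k T Lt a dg ω i y.1 y.2 v
    have e3 : ∑ i' ∈ range T, ∑ p' ∈ Us ω (k * i'), ∑ j ∈ Lt i' p', Kf k Lt a i j v ≤
        T * (2 * (E * M * ((1 / 2) ^ (k * i) * G)) + w₂ * (v ⬝ᵥ v)) := by
      have e4 : ∀ i' ∈ range T, ∑ p' ∈ Us ω (k * i'), ∑ j ∈ Lt i' p', Kf k Lt a i j v ≤
          2 * (E * M * ((1 / 2) ^ (k * i) * G)) + w₂ * (v ⬝ᵥ v) := by
        intro i' hi'
        have hi'' := Finset.mem_range.mp hi'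
        have e5 := g3 i hi.2 i' hi'' v
        have e6 := late_mean (a := a) (hM i hi.2) hE0 (hE i' hi'') v
        linarith
      have e7 := Finset.sum_le_card_nsmul _ _ _ e4
      rw [Finset.card_range, nsmul_eq_mul] at e7
      exact e7
    have e8 : (1 / 2 : ℝ) ^ (k * i) * G ≤ (1 / 2) ^ (k * s) * G := by
      refine mul_le_mul_of_nonneg_right ?_ hG0
      exact pow_le_pow_of_le_one (by norm_num) (by norm_num) (Nat.mul_le_mul_left k hi.1)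
    have e9 : (T : ℝ) * (2 * (E * M * ((1 / 2) ^ (k * i) * G)) + w₂ * (v ⬝ᵥ v)) ≤
        T * (2 * (E * M * ((1 / 2) ^ (k * s) * G)) + w₂ * (v ⬝ᵥ v)) := by
      have : E * M * ((1 / 2) ^ (k * i) * G) ≤ E * M * ((1 / 2) ^ (k * s) * G) :=
        mul_le_mul_of_nonneg_left e8 (by positivity)
      refine mul_le_mul_of_nonneg_left ?_ (by positivity)
      linarith
    rw [hX]
    nlinarith [e1, e2, e3, e9]
  refine (coll_cover k T Lt a dg hdg ω s v).trans ?_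
  calc ∑ y : β × Bool, ∑ i ∈ Finset.Ico s T, ∑ p ∈ (Us ω (k * i)).filter
        (fun p => p ∈ Bs k T Lt dg ω i y.1 y.2), (a p ⬝ᵥ v) ^ 2
      ≤ ∑ _y : β × Bool, (T : ℝ) * X := by
        refine Finset.sum_le_sum fun y _ => ?_
        have e7 := Finset.sum_le_card_nsmul _ _ _ (h1 y)
        rw [Nat.card_Ico, nsmul_eq_mul] at e7
        refine e7.trans ?_
        refine mul_le_mul_of_nonneg_right ?_ hX0
        exact_mod_cast Nat.sub_le T s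
    _ = 2 * Fintype.card β * T * X := by
        rw [Finset.sum_const, card_univ, Fintype.card_prod, Fintype.card_bool, nsmul_eq_mul]
        push_cast
        ring
    _ = _ := by
        rw [hX]
        ring

end Pool.Agent.LibKS77
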