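import Pool.Agent.LibKS77.Coll

set_option autoImplicit false
set_option linter.unusedSectionVars false

/-!
# Module S of the general Komlós bound: the sampling theorem (S1)-(S4)
-/

namespace Pool.Agent.LibKS77

open Matrix Finset KH98

variable {m : Type*} [Fintype m] [DecidableEq m]
variable {ι : Type*} [Fintype ι] [DecidableEq ι]

/-- the coarse rows: entries of the old part of size at least `g` -/
noncomputable def Lg (u : ℕ → ι → m → ℝ) (g : ℝ) (i : ℕ) (p : ι) : Finset m :=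
  open Classical in univ.filter fun j => g ≤ |u i p j|

theorem mem_Lg {u : ℕ → ι → m → ℝ} {g : ℝ} {i : ℕ} {p : ι} {j : m} :
    j ∈ Lg u g i p ↔ g ≤ |u i p j| := by
  simp [Lg]

theorem card_Lg_le {u : ℕ → ι → m → ℝ} {g : ℝ} (hg : 0 < g) {i : ℕ} {p : ι}
    (hu : u i p ⬝ᵥ u i p ≤ 1) : ((Lg u g i p).card : ℝ) ≤ 1 / g ^ 2 := by
  rw [le_div_iff₀ (by positivity)]
  have h1 : ((Lg u g i p).card : ℝ) * g ^ 2 ≤ ∑ j ∈ Lg u g i p, (u i p j) ^ 2 := by
    rw [← nsmul_eq_mul]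
    refine Finset.card_nsmul_le_sum _ _ _ fun j hj => ?_
    rw [mem_Lg] at hj
    rw [← sq_abs (u i p j)]
    exact pow_le_pow_left₀ hg.le hj 2
  have h2 : ∑ j ∈ Lg u g i p, (u i p j) ^ 2 ≤ ∑ j, (u i p j) ^ 2 :=
    Finset.sum_le_sum_of_subset_of_nonneg (Finset.subset_univ _) fun j _ _ => by positivity
  have h3 : ∑ j, (u i p j) ^ 2 = u i p ⬝ᵥ u i p := by
    simp [dotProduct, sq]
  linarith

theorem card_row_le {u : ℕ → ι → m → ℝ} {g eo : ℝ} (hg : 0 < g) {k i : ℕ} {j : m}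
    (hu : (1 / 2 : ℝ) ^ (k * i) * ∑ p, (u i p j) ^ 2 ≤ eo) :
    (1 / 2 : ℝ) ^ (k * i) * ((univ.filter fun p => j ∈ Lg u g i p).card : ℝ) ≤ eo / g ^ 2 := by
  rw [le_div_iff₀ (by positivity)]
  have h1 : ((univ.filter fun p => j ∈ Lg u g i p).card : ℝ) * g ^ 2 ≤
      ∑ p ∈ univ.filter fun p => j ∈ Lg u g i p, (u i p j) ^ 2 := by
    rw [← nsmul_eq_mul]
    refine Finset.card_nsmul_le_sum _ _ _ fun p hp => ?_
    rw [Finset.mem_filter, mem_Lg] at hp
    rw [← sq_abs (u i p j)]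
    exact pow_le_pow_left₀ hg.le hp.2 2
  have h2 : ∑ p ∈ univ.filter fun p => j ∈ Lg u g i p, (u i p j) ^ 2 ≤ ∑ p, (u i p j) ^ 2 :=
    Finset.sum_le_sum_of_subset_of_nonneg (Finset.subset_univ _) fun j _ _ => by positivity
  calc (1 / 2 : ℝ) ^ (k * i) * ((univ.filter fun p => j ∈ Lg u g i p).card : ℝ) * g ^ 2
      = (1 / 2 : ℝ) ^ (k * i) * (((univ.filter fun p => j ∈ Lg u g i p).card : ℝ) * g ^ 2) := by
        ring
    _ ≤ (1 / 2 : ℝ) ^ (k * i) * ∑ p, (u i p j) ^ 2 :=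
        mul_le_mul_of_nonneg_left (h1.trans h2) (by positivity)
    _ ≤ eo := hu

/-- the matrix of the form `K_j` -/
noncomputable def Km (k : ℕ) (Lt : ℕ → ι → Finset m) (a : ι → m → ℝ) (i : ℕ) (j : m) :
    Matrix m m ℝ :=
  (1 / 2 : ℝ) ^ (k * i) • ∑ p, if j ∈ Lt i p then vecMulVec (a p) (a p) else 0

theorem symm_Km (k : ℕ) (Lt : ℕ → ι → Finset m) (a : ι → m → ℝ) (i : ℕ) (j : m) :
    (Km k Lt a i j).IsSymm := by
  unfold Km
  refine Matrix.IsSymm.smul ?_ _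
  refine symm_sum _ _ fun p _ => ?_
  split_ifs
  · exact symm_vecMulVec _
  · exact Matrix.isSymm_zero

theorem qf_Km (k : ℕ) (Lt : ℕ → ι → Finset m) (a : ι → m → ℝ) (i : ℕ) (j : m) (v : m → ℝ) :
    qf (Km k Lt a i j) v = Kf k Lt a i j v := by
  unfold Km Kf
  rw [qf_smul, qf_sum]
  congr 1
  refine Finset.sum_congr rfl fun p _ => ?_
  split_ifs
  · exact qf_vecMulVec _ _
  · exact qf_zero _

theorem card_biUnion_le_mul {α Ω : Type*} [Fintype α] [DecidableEq α] [DecidableEq Ω]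
    (B : α → Finset Ω) {c : ℝ} (hB : ∀ y, ((B y).card : ℝ) ≤ c) :
    ((univ.biUnion B).card : ℝ) ≤ Fintype.card α * c := by
  have h1 : ((univ.biUnion B).card : ℝ) ≤ ∑ y : α, ((B y).card : ℝ) := by
    exact_mod_cast Finset.card_biUnion_le
  refine h1.trans ?_
  have h2 := Finset.sum_le_card_nsmul univ (fun y => ((B y).card : ℝ)) c (fun y _ => hB y)
  rw [nsmul_eq_mul, card_univ] at h2
  exact h2

/-- The sampling theorem. Batch `0` is `V 0` (the collisions), batch `s` is `V s`, and `U s` is the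
union of the later batches. `u i p` is the old part of the vector `a p` for the batch `i + 1`. -/
theorem sampling (a : ι → m → ℝ) (ha : ∀ p, a p ⬝ᵥ a p ≤ 1) (u : ℕ → ι → m → ℝ)
    {k T D κ : ℕ} (hT : 0 < T) (hκ : 0 < κ) {g eo : ℝ} (hg : 0 < g) (heo : 0 ≤ eo)
    (hu1 : ∀ i < T, ∀ p, u i p ⬝ᵥ u i p ≤ 1)
    (hu2 : ∀ i < T, ∀ j, (1 / 2 : ℝ) ^ (k * i) * ∑ p, (u i p j) ^ 2 ≤ eo)
    (hD : Fintype.card ι ≤ 2 ^ D)
    {η W w₁ w₂ w₃ : ℝ} (hη : 0 < η) (hη1 : η ≤ 1) (hW : 0 < W) (hw₁ : 0 < w₁) (hw₂ : 0 < w₂)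
    (hw₃ : 0 < w₃)
    (hb0 : 12 * κ * ((k * T : ℕ) : ℝ) ^ 2 ≤ W * (η / 2) ^ 2)
    (hb1 : 12 * κ * ((k * T : ℕ) : ℝ) ^ 2 ≤ w₁)
    (hb2 : 12 * κ * (eo / g ^ 4) * ((k * T : ℕ) : ℝ) ^ 2 ≤ w₂)
    (hb3 : 12 * κ * g ^ 2 * ((k * T : ℕ) : ℝ) ^ 2 ≤ w₃)
    (hprob : (1 + 2 * D * T + (T : ℝ) ^ 2 + T * Fintype.card m) *
      (((k * T : ℕ) : ℝ) * (Fintype.card m * Real.exp (-κ))) < 1)
    (hA : 8 * D * (T : ℝ) ^ 2 * (eo / g ^ 4) ≤ η / 2)
    (hB : 2 * D * T * (2 * T * w₂ + w₁) ≤ η / 2 * W)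
    (hend : (1 / 2 : ℝ) ^ (k * T) * Fintype.card ι ≤ η * W) :
    ∃ V U : ℕ → Finset ι, U T = ∅ ∧ V 0 ∪ U 0 = univ ∧ Disjoint (V 0) (U 0) ∧
      (∀ s < T, U s = V (s + 1) ∪ U (s + 1) ∧ Disjoint (V (s + 1)) (U (s + 1))) ∧
      (∀ s ≤ T, ∀ v : m → ℝ,
        |∑ p ∈ U s, (a p ⬝ᵥ v) ^ 2 - (1 / 2) ^ (k * s) * ∑ p, (a p ⬝ᵥ v) ^ 2| ≤
          η * ((1 / 2) ^ (k * s) * ∑ p, (a p ⬝ᵥ v) ^ 2 + W * (v ⬝ᵥ v))) ∧
      (∀ j, ∑ i ∈ range T, ∑ p ∈ V (i + 1),
        (if |u i p j| < g then (u i p j) ^ 2 else 0) ≤ T * (2 * eo + w₃)) ∧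
      (∀ j, ∀ i < T, ∀ i' < T, ∀ p ∈ V (i + 1), ∀ p' ∈ V (i' + 1),
        g ≤ |u i p j| → g ≤ |u i' p' j| → p = p') := by
  classical
  -- digits
  obtain ⟨emb⟩ : Nonempty (ι ↪ (Fin D → Bool)) := by
    refine Function.Embedding.nonempty_of_card_le ?_
    rw [Fintype.card_fun, Fintype.card_bool, Fintype.card_fin]
    exact hD
  set dg : Fin D → ι → Bool := fun b p => emb p b with hdgdef
  have hdg : ∀ p p', p ≠ p' → ∃ b, dg b p ≠ dg b p' := by
    intro p p' hne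
    by_contra hcon
    push Not at hcon
    exact hne (emb.injective (funext hcon))
  set Lt : ℕ → ι → Finset m := Lg u g with hLt
  set Ω : Type _ := ι → Fin (k * T) → Bool with hΩ
  set q : ℝ := ((k * T : ℕ) : ℝ) * (Fintype.card m * Real.exp (-κ)) with hq
  have hq0 : 0 ≤ q := by positivity
  set E : ℝ := eo / g ^ 2 with hE
  set M : ℝ := 1 / g ^ 2 with hM
  have hEM : E * M = eo / g ^ 4 := by
    rw [hE, hM]
    field_simp
  have hE0 : 0 ≤ E := by positivity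
  have hM0 : 0 ≤ M := by positivity
  have hMc : ∀ i < T, ∀ p, ((Lt i p).card : ℝ) ≤ M := fun i hi p => card_Lg_le hg (hu1 i hi p)
  have hEc : ∀ i < T, ∀ j, (1 / 2 : ℝ) ^ (k * i) *
      ((univ.filter fun p => j ∈ Lt i p).card : ℝ) ≤ E := fun i hi j => card_row_le hg (hu2 i hi j)
  -- events
  set Y1 : ι → Matrix m m ℝ := fun p => vecMulVec (a p) (a p) with hY1
  set B1 : Finset Ω := univ.filter fun ω => ∃ t ≤ k * T, ∃ v,
    η / 2 * Mt Y1 W t v < |dev Y1 ω t v| with hB1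
  set Y2 : ℕ → Fin D → Bool → Ω → ι → Matrix m m ℝ := fun i b x ω p =>
    if p ∈ Bs k T Lt dg ω i b x then vecMulVec (a p) (a p) else 0 with hY2
  set B2 : Fin T × Fin D × Bool → Finset Ω := fun y => univ.filter fun ω => ∃ t ≤ k * T, ∃ v,
    2 * ((1 / 2) ^ t * ∑ p, qf (Y2 y.1 y.2.1 y.2.2 ω p) v) + w₁ * (v ⬝ᵥ v) <
      ∑ p ∈ Us ω t, qf (Y2 y.1 y.2.1 y.2.2 ω p) v with hB2
  set Y3 : ℕ → ℕ → ι → Matrix m m ℝ := fun i i' p' => ∑ j ∈ Lt i' p', Km k Lt a i j with hY3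
  set B3 : Fin T × Fin T → Finset Ω := fun y => univ.filter fun ω => ∃ t ≤ k * T, ∃ v,
    2 * ((1 / 2) ^ t * ∑ p, qf (Y3 y.1 y.2 p) v) + w₂ * (v ⬝ᵥ v) <
      ∑ p ∈ Us ω t, qf (Y3 y.1 y.2 p) v with hB3
  set y4 : ℕ → m → ι → ℝ := fun i j p => if |u i p j| < g then (u i p j) ^ 2 else 0 with hy4
  set B4 : Fin T × m → Finset Ω := fun y => univ.filter fun ω => ∃ t ≤ k * T,
    2 * ((1 / 2) ^ t * ∑ p, y4 y.1 y.2 p) + w₃ < ∑ p ∈ Us ω t, y4 y.1 y.2 p with hB4
  set NΩ : ℝ := ((Fintype.card Ω : ℕ) : ℝ) with hNΩ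
  have hNpos : 0 < NΩ := by
    rw [hNΩ]
    exact_mod_cast Fintype.card_pos
  have hqf1 : ∀ p v, qf (Y1 p) v = (a p ⬝ᵥ v) ^ 2 := fun p v => qf_vecMulVec _ _
  have c1 : (B1.card : ℝ) ≤ q * NΩ := by
    refine halving Y1 (fun p => symm_vecMulVec _) (fun p v => ?_) (ρ := 1) zero_le_one
      (fun p v => ?_) hW (by linarith : (0 : ℝ) < η / 2) (by linarith) hκ
      (by simpa using hb0) B1 (fun ω hω => ?_)
    · rw [hqf1]
      positivity
    · rw [hqf1, one_mul]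
      exact dot_sq_le (ha p) v
    · rw [hB1, Finset.mem_filter] at hω
      exact hω.2
  have c2 : ∀ y, ((B2 y).card : ℝ) ≤ q * NΩ := by
    rintro ⟨i, b, x⟩
    refine decoupled_bad (fun p => dg b p = x) (Y2 i b x) (fun ω p => ?_) (fun ω p v => ?_)
      (ρ := 1) zero_le_one (fun ω p v => ?_) (fun ω p hp => ?_) (fun ω ω' h => ?_) hw₁ hκ
      (by simpa using hb1) _ (fun ω hω => ?_)
    · simp only [hY2]
      split_ifs
      · exact symm_vecMulVec _
      · exact Matrix.isSymm_zero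
    · simp only [hY2]
      split_ifs
      · rw [qf_vecMulVec]
        positivity
      · rw [qf_zero]
    · simp only [hY2]
      split_ifs
      · rw [qf_vecMulVec, one_mul]
        exact dot_sq_le (ha p) v
      · rw [qf_zero, one_mul]
        exact dot_self_nonneg v
    · simp only [hY2]
      rw [if_neg]
      intro hmem
      unfold Bs at hmem
      rw [Finset.mem_filter] at hmem
      exact hp hmem.2.1
    · have : Bs k T Lt dg ω' i b x = Bs k T Lt dg ω i b x := by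
        have hU : ∀ p', dg b p' ≠ x → ∀ t, (p' ∈ Us ω' t ↔ p' ∈ Us ω t) := by
          intro p' hp' t
          rw [mem_Us, mem_Us, h p' hp']
        ext p
        unfold Bs
        rw [Finset.mem_filter, Finset.mem_filter]
        constructor
        · rintro ⟨h1, h2, p', hp', i', hi', hU', hj⟩
          exact ⟨h1, h2, p', hp', i', hi', (hU p' hp' _).mp hU', hj⟩
        · rintro ⟨h1, h2, p', hp', i', hi', hU', hj⟩
          exact ⟨h1, h2, p', hp', i', hi', (hU p' hp' _).mpr hU', hj⟩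
      funext p
      simp only [hY2]
      rw [this]
    · rw [hB2] at hω
      simp only [Finset.mem_filter] at hω
      exact hω.2
  have hqf3 : ∀ i i' p v, qf (Y3 i i' p) v = ∑ j ∈ Lt i' p, Kf k Lt a i j v := by
    intro i i' p v
    simp only [hY3]
    rw [qf_sum]
    exact Finset.sum_congr rfl fun j _ => qf_Km k Lt a i j v
  have c3 : ∀ y, ((B3 y).card : ℝ) ≤ q * NΩ := by
    rintro ⟨i, i'⟩
    refine upper_bad (Y3 i i') (fun p => ?_) (fun p v => ?_)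
      (ρ := eo / g ^ 4) (by positivity) (fun p v => ?_) hw₂ hκ hb2 _ (fun ω hω => ?_)
    · simp only [hY3]
      exact symm_sum _ _ fun j _ => symm_Km k Lt a i j
    · rw [hqf3]
      exact Finset.sum_nonneg fun j _ => Kf_nonneg k Lt a i j v
    · rw [hqf3]
      have h1 : ∑ j ∈ Lt i' p, Kf k Lt a i j v ≤ ((Lt i' p).card : ℝ) * (E * (v ⬝ᵥ v)) := by
        rw [← nsmul_eq_mul]
        exact Finset.sum_le_card_nsmul _ _ _ fun j _ => Kf_le ha (hEc i i.2) j v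
      refine h1.trans ?_
      rw [← hEM]
      have h2 := mul_nonneg hE0 (dot_self_nonneg v)
      calc ((Lt i' p).card : ℝ) * (E * (v ⬝ᵥ v)) ≤ M * (E * (v ⬝ᵥ v)) :=
            mul_le_mul_of_nonneg_right (hMc i' i'.2 p) h2
        _ = E * M * (v ⬝ᵥ v) := by ring
    · rw [hB3] at hω
      simp only [Finset.mem_filter] at hω
      exact hω.2
  have c4 : ∀ y, ((B4 y).card : ℝ) ≤ q * NΩ := by
    rintro ⟨i, j⟩
    have h1 : ((B4 (i, j)).card : ℝ) ≤ ((k * T : ℕ) : ℝ) * Real.exp (-κ) * NΩ := by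
      refine scalar_bad (y4 i j) (fun p => ?_) (ρ := g ^ 2) (fun p => ?_) (by positivity) hw₃ hκ
        hb3 _ (fun ω hω => ?_)
      · simp only [hy4]
        split_ifs <;> positivity
      · simp only [hy4]
        split_ifs with h
        · rw [← sq_abs (u i p j)]
          exact pow_le_pow_left₀ (abs_nonneg _) h.le 2
        · positivity
      · rw [hB4] at hω
        simp only [Finset.mem_filter] at hω
        exact hω.2
    refine h1.trans (mul_le_mul_of_nonneg_right ?_ hNpos.le)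
    rw [hq]
    have h2 : (1 : ℝ) ≤ Fintype.card m := by
      have : 0 < Fintype.card m := Fintype.card_pos_iff.mpr ⟨j⟩
      exact_mod_cast this
    have h3 : 0 ≤ Real.exp (-(κ : ℝ)) := (Real.exp_pos _).le
    have h4 : Real.exp (-(κ : ℝ)) ≤ Fintype.card m * Real.exp (-κ) := by nlinarith
    exact mul_le_mul_of_nonneg_left h4 (by positivity)
  -- union bound
  obtain ⟨ω, hω⟩ : ∃ ω : Ω, ω ∉ B1 ∧ (∀ y, ω ∉ B2 y) ∧ (∀ y, ω ∉ B3 y) ∧ (∀ y, ω ∉ B4 y) := by
    by_contra hcon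
    push Not at hcon
    have hcov : (univ : Finset Ω) ⊆ B1 ∪ (univ.biUnion B2 ∪ (univ.biUnion B3 ∪ univ.biUnion B4)) := by
      intro ω _
      rw [Finset.mem_union, Finset.mem_union, Finset.mem_union, Finset.mem_biUnion,
        Finset.mem_biUnion, Finset.mem_biUnion]
      by_cases h1 : ω ∈ B1
      · exact Or.inl h1
      by_cases h2 : ∃ y, ω ∈ B2 y
      · obtain ⟨y, hy⟩ := h2
        exact Or.inr (Or.inl ⟨y, Finset.mem_univ _, hy⟩)
      by_cases h3 : ∃ y, ω ∈ B3 y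
      · obtain ⟨y, hy⟩ := h3
        exact Or.inr (Or.inr (Or.inl ⟨y, Finset.mem_univ _, hy⟩))
      obtain ⟨y, hy⟩ := hcon ω h1 (fun y hy => h2 ⟨y, hy⟩) (fun y hy => h3 ⟨y, hy⟩)
      exact Or.inr (Or.inr (Or.inr ⟨y, Finset.mem_univ _, hy⟩))
    have t2 := card_biUnion_le_mul B2 c2
    have t3 := card_biUnion_le_mul B3 c3
    have t4 := card_biUnion_le_mul B4 c4
    simp only [Fintype.card_prod, Fintype.card_fin, Fintype.card_bool] at t2 t3 t4
    push_cast at t2 t3 t4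
    have h5 : NΩ ≤ (B1.card : ℝ) + (((univ.biUnion B2).card : ℝ) +
        (((univ.biUnion B3).card : ℝ) + ((univ.biUnion B4).card : ℝ))) := by
      have h6 := Finset.card_le_card hcov
      rw [card_univ] at h6
      have h7 : (B1 ∪ (univ.biUnion B2 ∪ (univ.biUnion B3 ∪ univ.biUnion B4))).card ≤
          B1.card + ((univ.biUnion B2).card + ((univ.biUnion B3).card +
            (univ.biUnion B4).card)) := by
        refine (Finset.card_union_le _ _).trans (Nat.add_le_add_left ?_ _)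
        refine (Finset.card_union_le _ _).trans (Nat.add_le_add_left ?_ _)
        exact Finset.card_union_le _ _
      rw [hNΩ]
      exact_mod_cast h6.trans h7
    have h8 : (1 + 2 * D * T + (T : ℝ) ^ 2 + T * Fintype.card m) * q * NΩ < 1 * NΩ :=
      mul_lt_mul_of_pos_right hprob hNpos
    have h9 : (B1.card : ℝ) + (((univ.biUnion B2).card : ℝ) +
        (((univ.biUnion B3).card : ℝ) + ((univ.biUnion B4).card : ℝ))) ≤
        (1 + 2 * D * T + (T : ℝ) ^ 2 + T * Fintype.card m) * q * NΩ := by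
      calc (B1.card : ℝ) + (((univ.biUnion B2).card : ℝ) +
        (((univ.biUnion B3).card : ℝ) + ((univ.biUnion B4).card : ℝ)))
          ≤ q * NΩ + ((T : ℝ) * (D * 2) * (q * NΩ) + ((T : ℝ) * T * (q * NΩ) +
            (T : ℝ) * Fintype.card m * (q * NΩ))) := by
            exact add_le_add c1 (add_le_add t2 (add_le_add t3 t4))
        _ = _ := by ring
    linarith
  obtain ⟨n1, n2, n3, n4⟩ := hω
  -- properties of the good outcome
  have hτ : ∀ s ≤ T, k * s ≤ k * T := fun s hs => Nat.mul_le_mul_left k hs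
  have g1 : ∀ s ≤ T, ∀ v, |∑ p ∈ Us ω (k * s), (a p ⬝ᵥ v) ^ 2 -
      (1 / 2) ^ (k * s) * ∑ p, (a p ⬝ᵥ v) ^ 2| ≤
      η / 2 * ((1 / 2) ^ (k * s) * ∑ p, (a p ⬝ᵥ v) ^ 2 + W * (v ⬝ᵥ v)) := by
    intro s hs v
    by_contra hcon
    push Not at hcon
    refine n1 ?_
    rw [hB1, Finset.mem_filter]
    refine ⟨Finset.mem_univ _, k * s, hτ s hs, v, ?_⟩
    unfold Mt dev
    simp only [hqf1]
    exact hcon
  have g2 : ∀ i < T, ∀ (b : Fin D) (x : Bool) (v : m → ℝ),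
      ∑ p ∈ (Us ω (k * i)).filter (fun p => p ∈ Bs k T Lt dg ω i b x), (a p ⬝ᵥ v) ^ 2 ≤
        2 * ((1 / 2) ^ (k * i) * ∑ p ∈ Bs k T Lt dg ω i b x, (a p ⬝ᵥ v) ^ 2) +
          w₁ * (v ⬝ᵥ v) := by
    intro i hi b x v
    by_contra hcon
    push Not at hcon
    refine n2 (⟨i, hi⟩, b, x) ?_
    rw [hB2]
    simp only [Finset.mem_filter]
    refine ⟨Finset.mem_univ _, k * i, hτ i hi.le, v, ?_⟩
    have e1 : ∀ p, qf (Y2 i b x ω p) v =
        if p ∈ Bs k T Lt dg ω i b x then (a p ⬝ᵥ v) ^ 2 else 0 := by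
      intro p
      simp only [hY2]
      split_ifs
      · exact qf_vecMulVec _ _
      · exact qf_zero _
    simp only [e1]
    rw [← Finset.sum_filter, ← Finset.sum_filter]
    have e2 : (univ.filter fun p => p ∈ Bs k T Lt dg ω i b x) = Bs k T Lt dg ω i b x := by
      ext p
      simp
    rw [e2]
    exact hcon
  have g3 : ∀ i < T, ∀ i' < T, ∀ v : m → ℝ,
      ∑ p' ∈ Us ω (k * i'), ∑ j ∈ Lt i' p', Kf k Lt a i j v ≤
        2 * ((1 / 2) ^ (k * i') * ∑ p', ∑ j ∈ Lt i' p', Kf k Lt a i j v) + w₂ * (v ⬝ᵥ v) := by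
    intro i hi i' hi' v
    by_contra hcon
    push Not at hcon
    refine n3 (⟨i, hi⟩, ⟨i', hi'⟩) ?_
    rw [hB3]
    simp only [Finset.mem_filter]
    refine ⟨Finset.mem_univ _, k * i', hτ i' hi'.le, v, ?_⟩
    simp only [hqf3]
    exact hcon
  have g4 : ∀ i < T, ∀ j, ∑ p ∈ Us ω (k * i), y4 i j p ≤
      2 * ((1 / 2) ^ (k * i) * ∑ p, y4 i j p) + w₃ := by
    intro i hi j
    by_contra hcon
    push Not at hcon
    refine n4 (⟨i, hi⟩, j) ?_
    rw [hB4]
    simp only [Finset.mem_filter]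
    exact ⟨Finset.mem_univ _, k * i, hτ i hi.le, hcon⟩
  -- the partition
  have hS4 := fun (s : ℕ) (v : m → ℝ) => coll_small (a := a) hdg hE0 hM0 hw₁.le hw₂.le hMc hEc g2
    g3 s v
  simp only [Fintype.card_fin, hEM] at hS4
  set N : Finset ι := Nc k T Lt ω with hN
  refine ⟨fun s => if s = 0 then N else Vp k T ω (s - 1) \ N, fun s => Up k T ω s \ N,
    ?_, ?_, ?_, ?_, ?_, ?_, ?_⟩
  · simp only [Up_T, Finset.empty_sdiff]
  · simp only [if_true, Up_zero k hT]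
    ext p
    simp only [Finset.mem_union, Finset.mem_sdiff, Finset.mem_univ, true_and, iff_true]
    exact em _
  · simp only [if_true]
    exact Finset.disjoint_sdiff
  · intro s _
    simp only [Nat.add_eq_zero_iff, one_ne_zero, and_false, if_false, Nat.add_sub_cancel]
    constructor
    · ext p
      simp only [Finset.mem_union, Finset.mem_sdiff, Vp]
      constructor
      · rintro ⟨h1, h2⟩
        by_cases h3 : p ∈ Up k T ω (s + 1)
        · exact Or.inr ⟨h3, h2⟩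
        · exact Or.inl ⟨⟨h1, h3⟩, h2⟩
      · rintro (⟨⟨h1, _⟩, h2⟩ | ⟨h1, h2⟩)
        · exact ⟨h1, h2⟩
        · exact ⟨Up_anti k T ω (Nat.le_succ s) h1, h2⟩
    · rw [Finset.disjoint_left]
      intro p h1 h2
      simp only [Finset.mem_sdiff, Vp] at h1 h2
      exact h1.1.2 h2.1
  · -- (S1)
    intro s hs v
    have hv := dot_self_nonneg v
    have hG0 : 0 ≤ (1 / 2 : ℝ) ^ (k * s) * ∑ p, (a p ⬝ᵥ v) ^ 2 :=
      mul_nonneg (by positivity) (Finset.sum_nonneg fun p _ => by positivity)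
    rcases Nat.lt_or_ge s T with hsT | hsT
    · have e1 : ∑ p ∈ Up k T ω s \ N, (a p ⬝ᵥ v) ^ 2 =
          ∑ p ∈ Us ω (k * s), (a p ⬝ᵥ v) ^ 2 - ∑ p ∈ N ∩ Up k T ω s, (a p ⬝ᵥ v) ^ 2 := by
        have e2 : Up k T ω s = Us ω (k * s) := by
          unfold Up
          rw [if_pos hsT]
        have e3 := Finset.sum_sdiff (f := fun p => (a p ⬝ᵥ v) ^ 2)
          (Finset.inter_subset_right (s₁ := N) (s₂ := Up k T ω s))
        have e4 : Up k T ω s \ (N ∩ Up k T ω s) = Up k T ω s \ N := by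
          ext p
          simp only [Finset.mem_sdiff, Finset.mem_inter]
          tauto
        rw [e4] at e3
        rw [← e2]
        linarith
      have e5 := g1 s hs v
      have e6 := hS4 s v
      have e7 : 0 ≤ ∑ p ∈ N ∩ Up k T ω s, (a p ⬝ᵥ v) ^ 2 :=
        Finset.sum_nonneg fun p _ => by positivity
      have e8 : ∑ p ∈ N ∩ Up k T ω s, (a p ⬝ᵥ v) ^ 2 ≤
          η / 2 * ((1 / 2) ^ (k * s) * ∑ p, (a p ⬝ᵥ v) ^ 2) + η / 2 * W * (v ⬝ᵥ v) := by
        refine e6.trans ?_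
        exact add_le_add (mul_le_mul_of_nonneg_right hA hG0) (mul_le_mul_of_nonneg_right hB hv)
      change |∑ p ∈ Up k T ω s \ N, (a p ⬝ᵥ v) ^ 2 - _| ≤ _
      rw [e1]
      rw [abs_le] at e5 ⊢
      constructor <;> nlinarith [e5.1, e5.2]
    · have hsT' : s = T := le_antisymm hs hsT
      subst hsT'
      simp only [Up_T, Finset.empty_sdiff, Finset.sum_empty, zero_sub, abs_neg]
      rw [abs_of_nonneg hG0]
      have e1 : ∑ p, (a p ⬝ᵥ v) ^ 2 ≤ Fintype.card ι * (v ⬝ᵥ v) := by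
        rw [← card_univ, ← nsmul_eq_mul]
        exact Finset.sum_le_card_nsmul _ _ _ fun p _ => dot_sq_le (ha p) v
      have e2 : (1 / 2 : ℝ) ^ (k * s) * ∑ p, (a p ⬝ᵥ v) ^ 2 ≤ η * W * (v ⬝ᵥ v) := by
        calc (1 / 2 : ℝ) ^ (k * s) * ∑ p, (a p ⬝ᵥ v) ^ 2
            ≤ (1 / 2 : ℝ) ^ (k * s) * (Fintype.card ι * (v ⬝ᵥ v)) :=
              mul_le_mul_of_nonneg_left e1 (by positivity)
          _ = ((1 / 2 : ℝ) ^ (k * s) * Fintype.card ι) * (v ⬝ᵥ v) := by ring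
          _ ≤ η * W * (v ⬝ᵥ v) := mul_le_mul_of_nonneg_right hend hv
      have e3 := mul_nonneg hη.le hG0
      linarith
  · -- (S2)
    intro j
    have h1 : ∀ i ∈ range T, ∑ p ∈ (if i + 1 = 0 then N else Vp k T ω (i + 1 - 1) \ N),
        (if |u i p j| < g then (u i p j) ^ 2 else 0) ≤ 2 * eo + w₃ := by
      intro i hi
      have hi' := Finset.mem_range.mp hi
      simp only [Nat.add_eq_zero_iff, one_ne_zero, and_false, if_false, Nat.add_sub_cancel]
      have e1 : ∑ p ∈ Vp k T ω i \ N, (if |u i p j| < g then (u i p j) ^ 2 else 0) ≤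
          ∑ p ∈ Us ω (k * i), y4 i j p := by
        refine Finset.sum_le_sum_of_subset_of_nonneg ?_ ?_
        · exact Finset.sdiff_subset.trans (Vp_sub_Us k T ω i)
        · intro p _ _
          split_ifs <;> positivity
      have e2 : ∑ p, y4 i j p ≤ ∑ p, (u i p j) ^ 2 := by
        refine Finset.sum_le_sum fun p _ => ?_
        simp only [hy4]
        split_ifs
        · exact le_rfl
        · positivity
      have e3 : (1 / 2 : ℝ) ^ (k * i) * ∑ p, y4 i j p ≤ eo :=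
        (mul_le_mul_of_nonneg_left e2 (by positivity)).trans (hu2 i hi' j)
      have e4 := g4 i hi' j
      linarith
    have h2 := Finset.sum_le_card_nsmul _ _ _ h1
    rw [Finset.card_range, nsmul_eq_mul] at h2
    exact h2
  · -- (S3)
    intro j i hi i' hi' p hp p' hp' hj hj'
    simp only [Nat.add_eq_zero_iff, one_ne_zero, and_false, if_false, Nat.add_sub_cancel,
      Finset.mem_sdiff] at hp hp'
    by_contra hne
    refine hp.2 ?_
    rw [hN]
    unfold Nc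
    rw [Finset.mem_filter]
    exact ⟨Finset.mem_univ _, i, hi, hp.1, p', Ne.symm hne, i', hi', hp'.1, j, mem_Lg.mpr hj,
      mem_Lg.mpr hj'⟩

end Pool.Agent.LibKS77
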