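import Pool.Agent.LibKh98.Halv

set_option autoImplicit false
set_option linter.unusedSectionVars false

/-!
# Module S of the general Komlós bound, (S2)-(S4): probability part

One sided forms of the halving lemma, the scalar case, rank one matrices, and the decoupling
of a family depending on the bits outside a set `I`.
-/

namespace Pool.Agent.LibKS77

open Matrix Finset KH98

variable {m : Type*} [Fintype m] [DecidableEq m]
variable {ι : Type*} [Fintype ι] [DecidableEq ι] {τ : ℕ}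

/-! ### rank one matrices -/

theorem qf_vecMulVec (a v : m → ℝ) : qf (vecMulVec a a) v = (a ⬝ᵥ v) ^ 2 := by
  unfold qf
  rw [Matrix.vecMulVec_mulVec]
  simp only [dotProduct_smul, MulOpposite.smul_eq_mul_unop, MulOpposite.unop_op]
  rw [dotProduct_comm v a]
  ring

theorem symm_vecMulVec (a : m → ℝ) : (vecMulVec a a).IsSymm := by
  ext i j
  simp [vecMulVec_apply, mul_comm]

theorem qf_zero (v : m → ℝ) : qf (0 : Matrix m m ℝ) v = 0 := by simp [qf]

theorem symm_sum {α : Type*} (S : Finset α) (Y : α → Matrix m m ℝ) (h : ∀ p ∈ S, (Y p).IsSymm) :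
    (∑ p ∈ S, Y p).IsSymm := by
  classical
  induction S using Finset.induction_on with
  | empty => simp [Matrix.IsSymm]
  | insert a S ha ih =>
    rw [sum_insert ha]
    exact (h a (mem_insert_self a S)).add (ih fun p hp => h p (mem_insert_of_mem hp))

/-- Cauchy-Schwarz for the rank one forms. -/
theorem dot_sq_le {a : m → ℝ} (ha : a ⬝ᵥ a ≤ 1) (v : m → ℝ) : (a ⬝ᵥ v) ^ 2 ≤ v ⬝ᵥ v := by
  have h1 : (a ⬝ᵥ v) ^ 2 ≤ (a ⬝ᵥ a) * (v ⬝ᵥ v) := by
    have := Finset.sum_mul_sq_le_sq_mul_sq univ a v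
    simpa [dotProduct, sq] using this
  have h2 : 0 ≤ v ⬝ᵥ v := dot_self_nonneg v
  nlinarith

/-! ### one sided halving -/

/-- One sided form of the halving lemma: apart from few outcomes, every nested half is at most twice
its mean plus `w`. -/
theorem upper_bad (Y : ι → Matrix m m ℝ) (hs : ∀ p, (Y p).IsSymm) (h0 : ∀ p v, 0 ≤ qf (Y p) v)
    {ρ : ℝ} (hρ0 : 0 ≤ ρ) (hρ : ∀ p v, qf (Y p) v ≤ ρ * (v ⬝ᵥ v)) {w : ℝ} (hw : 0 < w)
    {κ : ℕ} (hκ : 0 < κ) (hbig : 12 * κ * ρ * (τ : ℝ) ^ 2 ≤ w) (B : Finset (ι → Fin τ → Bool))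
    (hB : ∀ ω ∈ B, ∃ t ≤ τ, ∃ v, 2 * ((1 / 2) ^ t * ∑ p, qf (Y p) v) + w * (v ⬝ᵥ v) <
      ∑ p ∈ Us ω t, qf (Y p) v) :
    (B.card : ℝ) ≤ τ * (Fintype.card m * Real.exp (-κ)) * Fintype.card (ι → Fin τ → Bool) := by
  refine halving Y hs h0 hρ0 hρ hw one_pos le_rfl hκ (by simpa using hbig) B ?_
  intro ω hω
  obtain ⟨t, ht, v, hv⟩ := hB ω hω
  refine ⟨t, ht, v, ?_⟩
  rw [one_mul]
  refine lt_of_lt_of_le ?_ (le_abs_self _)
  unfold Mt dev
  linarith

/-- The scalar case. -/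
theorem scalar_bad (y : ι → ℝ) (h0 : ∀ p, 0 ≤ y p) {ρ : ℝ} (hρ : ∀ p, y p ≤ ρ) (hρ0 : 0 ≤ ρ)
    {w : ℝ} (hw : 0 < w) {κ : ℕ} (hκ : 0 < κ) (hbig : 12 * κ * ρ * (τ : ℝ) ^ 2 ≤ w)
    (B : Finset (ι → Fin τ → Bool))
    (hB : ∀ ω ∈ B, ∃ t ≤ τ, 2 * ((1 / 2) ^ t * ∑ p, y p) + w < ∑ p ∈ Us ω t, y p) :
    (B.card : ℝ) ≤ τ * Real.exp (-κ) * Fintype.card (ι → Fin τ → Bool) := by
  have key : ∀ (p : ι) (v : Unit → ℝ),
      qf (Matrix.of fun _ _ : Unit => y p) v = y p * (v ⬝ᵥ v) := by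
    intro p v
    simp [qf, Matrix.mulVec, dotProduct]
    ring
  have h := upper_bad (m := Unit) (fun p => Matrix.of fun _ _ : Unit => y p) (ρ := ρ)
    (fun p => by ext i j; simp) (fun p v => by
      rw [key]
      exact mul_nonneg (h0 p) (dot_self_nonneg v)) hρ0 (fun p v => by
      rw [key]
      exact mul_le_mul_of_nonneg_right (hρ p) (dot_self_nonneg v)) hw hκ hbig B (by
      intro ω hω
      obtain ⟨t, ht, h⟩ := hB ω hω
      refine ⟨t, ht, fun _ => 1, ?_⟩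
      simp only [key]
      have h1 : ((fun _ => 1 : Unit → ℝ) ⬝ᵥ fun _ => 1) = 1 := by simp [dotProduct]
      rw [h1]
      simpa using h)
  simpa using h

/-! ### decoupling -/

/-- Decoupling: `Bd ω' ω` (bad with environment `ω'` and bits `ω`) depends only on the bits of `ω`
in `I` and on the bits of `ω'` outside `I`; so the diagonal is as rare as the worst fibre. -/
theorem decouple {Ω : Type*} [Fintype Ω] [DecidableEq Ω] (I : ι → Prop) [DecidablePred I]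
    (Bd : (ι → Ω) → (ι → Ω) → Prop) [∀ ω' ω, Decidable (Bd ω' ω)] {δ : ℝ}
    [Nonempty Ω]
    (h1 : ∀ ω', ((univ.filter fun ω => Bd ω' ω).card : ℝ) ≤ δ * Fintype.card (ι → Ω))
    (h2 : ∀ ω₁ ω ω' : ι → Ω, (∀ p, I p → ω p = ω₁ p) → (∀ p, ¬ I p → ω' p = ω₁ p) →
      Bd ω₁ ω₁ → Bd ω' ω) :
    ((univ.filter fun ω => Bd ω ω).card : ℝ) ≤ δ * Fintype.card (ι → Ω) := by
  classical
  set N : ℝ := ((Fintype.card (ι → Ω) : ℕ) : ℝ) with hN
  have hNpos : 0 < N := by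
    rw [hN]
    exact_mod_cast Fintype.card_pos
  -- pairs
  have h3 : ((univ.filter fun x : (ι → Ω) × (ι → Ω) => Bd x.1 x.2).card : ℝ) ≤ δ * N * N := by
    have e1 : (univ.filter fun x : (ι → Ω) × (ι → Ω) => Bd x.1 x.2).card =
        ∑ ω' : ι → Ω, (univ.filter fun ω => Bd ω' ω).card := by
      rw [Finset.card_filter]
      rw [Fintype.sum_prod_type]
      refine Finset.sum_congr rfl fun ω' _ => ?_
      rw [Finset.card_filter]
    rw [e1]
    push_cast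
    calc ∑ ω' : ι → Ω, ((univ.filter fun ω => Bd ω' ω).card : ℝ)
        ≤ ∑ _ω' : ι → Ω, δ * N := Finset.sum_le_sum fun ω' _ => h1 ω'
      _ = δ * N * N := by
          rw [Finset.sum_const, card_univ, nsmul_eq_mul, ← hN]
          ring
  -- injection of the diagonal times everything
  have h4 : ((univ.filter fun ω => Bd ω ω).card : ℝ) * N ≤
      ((univ.filter fun x : (ι → Ω) × (ι → Ω) => Bd x.1 x.2).card : ℝ) := by
    have e2 : ((univ.filter fun ω => Bd ω ω) ×ˢ (univ : Finset (ι → Ω))).card =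
        (univ.filter fun ω => Bd ω ω).card * Fintype.card (ι → Ω) := by
      rw [Finset.card_product, card_univ]
    rw [hN]
    rw [← Nat.cast_mul, ← e2]
    refine Nat.cast_le.mpr ?_
    refine Finset.card_le_card_of_injOn
      (fun x => ((fun p => if I p then x.2 p else x.1 p), (fun p => if I p then x.1 p else x.2 p)))
      ?_ ?_
    · rintro ⟨ω₁, ω₂⟩ hx
      simp only [Finset.coe_product, Finset.coe_filter, Finset.coe_univ, Set.mem_prod,
        Set.mem_ofPred_eq, Set.mem_univ, and_true, Finset.mem_univ, true_and] at hx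
      simp only [Finset.coe_filter, Finset.mem_univ, true_and, Set.mem_ofPred_eq]
      refine h2 ω₁ _ _ ?_ ?_ hx
      · intro p hp
        simp [hp]
      · intro p hp
        simp [hp]
    · rintro ⟨ω₁, ω₂⟩ _ ⟨ω₃, ω₄⟩ _ h
      simp only [Prod.mk.injEq] at h
      obtain ⟨ha, hb⟩ := h
      have hc : ∀ p, ω₁ p = ω₃ p ∧ ω₂ p = ω₄ p := by
        intro p
        have h5 := congrFun ha p
        have h6 := congrFun hb p
        by_cases hp : I p
        · simp only [hp, if_true] at h5 h6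
          exact ⟨h6, h5⟩
        · simp only [hp, if_false] at h5 h6
          exact ⟨h5, h6⟩
      simp only [Prod.mk.injEq]
      exact ⟨funext fun p => (hc p).1, funext fun p => (hc p).2⟩
  have h5 : ((univ.filter fun ω => Bd ω ω).card : ℝ) * N ≤ (δ * N) * N := h4.trans h3
  exact le_of_mul_le_mul_right h5 hNpos

/-- The halving lemma for a family `Y ω` supported on `I` and depending only on the bits outside
`I`. -/
theorem decoupled_bad (I : ι → Prop) [DecidablePred I]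
    (Y : (ι → Fin τ → Bool) → ι → Matrix m m ℝ) (hs : ∀ ω p, (Y ω p).IsSymm)
    (h0 : ∀ ω p v, 0 ≤ qf (Y ω p) v)
    {ρ : ℝ} (hρ0 : 0 ≤ ρ) (hρ : ∀ ω p v, qf (Y ω p) v ≤ ρ * (v ⬝ᵥ v))
    (hsup : ∀ ω p, ¬ I p → Y ω p = 0)
    (hdep : ∀ ω ω', (∀ p, ¬ I p → ω' p = ω p) → Y ω' = Y ω)
    {w : ℝ} (hw : 0 < w)
    {κ : ℕ} (hκ : 0 < κ) (hbig : 12 * κ * ρ * (τ : ℝ) ^ 2 ≤ w) (B : Finset (ι → Fin τ → Bool))
    (hB : ∀ ω ∈ B, ∃ t ≤ τ, ∃ v, 2 * ((1 / 2) ^ t * ∑ p, qf (Y ω p) v) + w * (v ⬝ᵥ v) <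
      ∑ p ∈ Us ω t, qf (Y ω p) v) :
    (B.card : ℝ) ≤ τ * (Fintype.card m * Real.exp (-κ)) * Fintype.card (ι → Fin τ → Bool) := by
  classical
  set Bd : (ι → Fin τ → Bool) → (ι → Fin τ → Bool) → Prop := fun ω' ω =>
    ∃ t ≤ τ, ∃ v, 2 * ((1 / 2) ^ t * ∑ p, qf (Y ω' p) v) + w * (v ⬝ᵥ v) <
      ∑ p ∈ Us ω t, qf (Y ω' p) v with hBd
  have hsub : B ⊆ univ.filter fun ω => Bd ω ω := by
    intro ω hω
    rw [Finset.mem_filter]
    exact ⟨Finset.mem_univ _, hB ω hω⟩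
  have h1 : (B.card : ℝ) ≤ ((univ.filter fun ω => Bd ω ω).card : ℝ) := by
    exact_mod_cast Finset.card_le_card hsub
  refine h1.trans ?_
  refine decouple (Ω := Fin τ → Bool) I Bd ?_ ?_
  · intro ω'
    refine upper_bad (Y ω') (hs ω') (h0 ω') hρ0 (hρ ω') hw hκ hbig _ ?_
    intro ω hω
    rw [Finset.mem_filter] at hω
    exact hω.2
  · intro ω₁ ω ω' hI hJ hbad
    obtain ⟨t, ht, v, hv⟩ := hbad
    refine ⟨t, ht, v, ?_⟩
    rw [hdep ω₁ ω' hJ]
    have e : ∑ p ∈ Us ω t, qf (Y ω₁ p) v = ∑ p ∈ Us ω₁ t, qf (Y ω₁ p) v := by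
      have hx : ∀ ω₃ : ι → Fin τ → Bool, ∑ p ∈ Us ω₃ t, qf (Y ω₁ p) v =
          ∑ p : ι, if (∀ i : Fin τ, (i : ℕ) < t → ω₃ p i = true) then qf (Y ω₁ p) v else 0 := by
        intro ω₃
        rw [Us, Finset.sum_filter]
      rw [hx, hx]
      refine Finset.sum_congr rfl fun p _ => ?_
      by_cases hp : I p
      · rw [hI p hp]
      · rw [hsup ω₁ p hp, qf_zero]
        simp
    rw [e]
    exact hv

end Pool.Agent.LibKS77
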